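import Pool.Agent.H73.TS.Targets

/-! Module INT of the board ts_modules: integrability and positivity. -/

open MeasureTheory Set Metric Filter
open scoped ENNReal Topology

namespace Pool.Agent.H84.TS

open Pool.Agent.H73.TS

private theorem int_gauss (d : ℕ) {b : ℝ} (hb : 0 < b) :
    Integrable (fun x : E d => Real.exp (-(b * ‖x‖ ^ 2))) := by
  have h := (GaussianFourier.integrable_cexp_neg_mul_sq_norm_add (V := E d) (b := (b : ℂ))
    (by simpa using hb) 0 0).norm
  refine h.congr (Eventually.of_forall fun x => ?_)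
  simp only [inner_zero_left, Complex.ofReal_zero, mul_zero, add_zero, Complex.norm_exp]
  congr 1
  have : (-(b : ℂ) * (‖x‖ : ℂ) ^ 2) = ((-(b * ‖x‖ ^ 2) : ℝ) : ℂ) := by push_cast; ring
  rw [this, Complex.ofReal_re]

theorem int (hDOM : T_DOM) : T_INT := by
  intro d Q hQ hB
  obtain ⟨C, hC, hdom⟩ := hDOM d Q hQ hB
  have hcont : Continuous fun x : E d => infDist x Q := continuous_infDist_pt Q
  have hcont1 : Continuous fun x : E d => Real.exp (-(Real.pi * infDist x Q ^ 2)) := by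
    fun_prop
  have h1 : Integrable (fun x : E d => Real.exp (-(Real.pi * infDist x Q ^ 2))) := by
    refine ((int_gauss d (b := Real.pi / 2) (by positivity)).const_mul C).mono'
      hcont1.aestronglyMeasurable (Eventually.of_forall fun x => ?_)
    rw [Real.norm_eq_abs, Real.abs_exp]
    exact hdom x
  refine ⟨h1, ?_, integral_exp_pos h1⟩
  have hg := ((int_gauss d (b := Real.pi / 4) (by positivity)).const_mul
    (2 / Real.pi * Real.sqrt C))
  refine hg.mono' (by fun_prop) (Eventually.of_forall fun x => ?_)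
  set D := infDist x Q with hD
  have hpos : 0 ≤ D ^ 2 * Real.exp (-(Real.pi * D ^ 2)) := by positivity
  rw [Real.norm_eq_abs, abs_of_nonneg hpos]
  have hu : Real.pi * D ^ 2 / 2 ≤ Real.exp (Real.pi * D ^ 2 / 2) := by
    have := Real.add_one_le_exp (Real.pi * D ^ 2 / 2)
    linarith
  have hu2 : D ^ 2 * Real.exp (-(Real.pi * D ^ 2)) ≤
      2 / Real.pi * Real.exp (-(Real.pi * D ^ 2) / 2) := by
    have e1 : Real.exp (-(Real.pi * D ^ 2) / 2) =
        Real.exp (Real.pi * D ^ 2 / 2) * Real.exp (-(Real.pi * D ^ 2)) := by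
      rw [← Real.exp_add]; ring_nf
    rw [e1, ← mul_assoc]
    refine mul_le_mul_of_nonneg_right ?_ (Real.exp_pos _).le
    have hpi := Real.pi_pos
    calc D ^ 2 = 2 / Real.pi * (Real.pi * D ^ 2 / 2) := by field_simp
      _ ≤ 2 / Real.pi * Real.exp (Real.pi * D ^ 2 / 2) :=
        mul_le_mul_of_nonneg_left hu (by positivity)
  have hu3 : Real.exp (-(Real.pi * D ^ 2) / 2) ≤
      Real.sqrt C * Real.exp (-(Real.pi / 4 * ‖x‖ ^ 2)) := by
    rw [Real.exp_half]
    have h2 : Real.exp (-(Real.pi / 4 * ‖x‖ ^ 2)) =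
        Real.sqrt (Real.exp (-(Real.pi / 2 * ‖x‖ ^ 2))) := by
      rw [← Real.exp_half]; congr 1; ring
    rw [h2, ← Real.sqrt_mul hC.le]
    exact Real.sqrt_le_sqrt (hdom x)
  calc D ^ 2 * Real.exp (-(Real.pi * D ^ 2)) ≤ 2 / Real.pi * Real.exp (-(Real.pi * D ^ 2) / 2) := hu2
    _ ≤ 2 / Real.pi * (Real.sqrt C * Real.exp (-(Real.pi / 4 * ‖x‖ ^ 2))) :=
      mul_le_mul_of_nonneg_left hu3 (by positivity)
    _ = 2 / Real.pi * Real.sqrt C * Real.exp (-(Real.pi / 4 * ‖x‖ ^ 2)) := by ring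

end Pool.Agent.H84.TS
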