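import Pool.Agent.H73.TS.Targets

/-! Module QB of the board ts_modules: basic properties of `er` and `qf`. -/

open MeasureTheory Set Metric Filter
open scoped ENNReal Topology

namespace Pool.Agent.H84.TS

open Pool.Agent.H73.TS

private theorem qb_cont : Continuous fun s : ℝ => Real.exp (-(Real.pi * s ^ 2)) := by fun_prop

private theorem qb_er (c : ℝ) : HasDerivAt er (Real.exp (-(Real.pi * c ^ 2))) c :=
  (qb_cont.integral_hasStrictDerivAt 0 c).hasDerivAt

private theorem qb_odd (c : ℝ) : er (-c) = - er c := by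
  unfold er
  have h := intervalIntegral.integral_comp_neg (a := c) (b := 0)
    (fun s : ℝ => Real.exp (-(Real.pi * s ^ 2)))
  simp only [neg_sq, neg_zero] at h
  rw [← h, intervalIntegral.integral_symm]

private theorem qb_sm : StrictMono er := strictMono_of_deriv_pos fun c => by
  rw [(qb_er c).deriv]; exact Real.exp_pos _

private theorem qb_int : IntegrableOn (fun s : ℝ => Real.exp (-(Real.pi * s ^ 2))) (Ioi 0) := by
  have h := (integrable_exp_neg_mul_sq Real.pi_pos).integrableOn (s := Ioi (0 : ℝ))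
  simpa only [neg_mul] using h

private theorem qb_val : ∫ s in Ioi (0 : ℝ), Real.exp (-(Real.pi * s ^ 2)) = 1 / 2 := by
  have h := integral_gaussian_Ioi Real.pi
  simp only [neg_mul] at h
  rw [h, div_self Real.pi_ne_zero, Real.sqrt_one]

private theorem qb_tend : Tendsto er atTop (𝓝 (1 / 2)) := by
  have h := intervalIntegral_tendsto_integral_Ioi 0 qb_int tendsto_id
  rw [qb_val] at h
  exact h

private theorem qb_lt (c : ℝ) : er c < 1 / 2 :=
  lt_of_lt_of_le (qb_sm (lt_add_one c)) (qb_sm.monotone.ge_of_tendsto qb_tend _)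

private theorem qb_gt (c : ℝ) : -(1 / 2) < er c := by
  have := qb_lt (-c)
  rw [qb_odd] at this
  linarith

private theorem qb_exp (c : ℝ) : HasDerivAt (fun c : ℝ => Real.exp (-(Real.pi * c ^ 2)))
    (Real.exp (-(Real.pi * c ^ 2)) * (-(Real.pi * (2 * c)))) c := by
  have h := ((((hasDerivAt_pow 2 c).const_mul Real.pi).neg)).exp
  simpa using h

private theorem qb_qf (c : ℝ) : HasDerivAt qf (2 * Real.pi * (1 / 2 + er c)) c := by
  have h1 : HasDerivAt (fun c : ℝ => 2 * Real.pi * c) (2 * Real.pi) c := by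
    simpa using (hasDerivAt_id c).const_mul (2 * Real.pi)
  have h2 : HasDerivAt (fun c : ℝ => 1 / 2 + er c) (Real.exp (-(Real.pi * c ^ 2))) c := by
    simpa using (qb_er c).const_add (1 / 2)
  have h := (qb_exp c).add (h1.mul h2)
  refine h.congr_deriv ?_
  ring

private theorem qb_psi (c : ℝ) (hc : 0 < c) :
    1 / 2 < Real.exp (-(Real.pi * c ^ 2)) / (2 * Real.pi * c) + er c := by
  have hder : ∀ x : ℝ, 0 < x → HasDerivAt
      (fun x => Real.exp (-(Real.pi * x ^ 2)) / (2 * Real.pi * x) + er x)
      (-(Real.exp (-(Real.pi * x ^ 2)) / (2 * Real.pi * x ^ 2))) x := by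
    intro x hx
    have h1 : HasDerivAt (fun c : ℝ => 2 * Real.pi * c) (2 * Real.pi) x := by
      simpa using (hasDerivAt_id x).const_mul (2 * Real.pi)
    have hpi := Real.pi_pos
    have hne : 2 * Real.pi * x ≠ 0 := by positivity
    have h := ((qb_exp x).div h1 hne).add (qb_er x)
    refine h.congr_deriv ?_
    field_simp
    ring
  have hanti : StrictAntiOn (fun x => Real.exp (-(Real.pi * x ^ 2)) / (2 * Real.pi * x) + er x)
      (Ioi 0) := by
    refine strictAntiOn_of_deriv_neg (convex_Ioi 0)
      (fun x hx => (hder x hx).continuousAt.continuousWithinAt) fun x hx => ?_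
    rw [interior_Ioi] at hx
    have hx' : 0 < x := hx
    rw [(hder x hx').deriv]
    have := Real.exp_pos (-(Real.pi * x ^ 2))
    have hpi := Real.pi_pos
    have : 0 < Real.exp (-(Real.pi * x ^ 2)) / (2 * Real.pi * x ^ 2) := by positivity
    linarith
  have h1 : Real.exp (-(Real.pi * (c + 1) ^ 2)) / (2 * Real.pi * (c + 1)) + er (c + 1) <
      Real.exp (-(Real.pi * c ^ 2)) / (2 * Real.pi * c) + er c :=
    hanti (show (0 : ℝ) < c from hc) (show (0 : ℝ) < c + 1 by linarith) (lt_add_one c)
  refine lt_of_le_of_lt ?_ h1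
  refine le_of_tendsto qb_tend ?_
  filter_upwards [eventually_ge_atTop (c + 1)] with T hT
  have h2 : Real.exp (-(Real.pi * T ^ 2)) / (2 * Real.pi * T) + er T ≤
      Real.exp (-(Real.pi * (c + 1) ^ 2)) / (2 * Real.pi * (c + 1)) + er (c + 1) :=
    hanti.antitoneOn (show (0 : ℝ) < c + 1 by linarith) (show (0 : ℝ) < T by linarith) hT
  have hT0 : 0 < T := by linarith
  have hpi := Real.pi_pos
  have h3 : 0 < Real.exp (-(Real.pi * T ^ 2)) / (2 * Real.pi * T) := by positivity
  linarith

private theorem qb_sub (c : ℝ) : qf c = qf (-c) + 2 * Real.pi * c := by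
  unfold qf
  rw [qb_odd, neg_sq]
  ring

private theorem qb_pos (c : ℝ) : 0 < qf c := by
  have hpi := Real.pi_pos
  rcases le_or_gt 0 c with hc | hc
  · unfold qf
    have h1 := Real.exp_pos (-(Real.pi * c ^ 2))
    have h2 := qb_gt c
    have h3 : 0 ≤ 2 * Real.pi * c * (1 / 2 + er c) := by
      apply mul_nonneg (by positivity); linarith
    linarith
  · have h := qb_psi (-c) (by linarith)
    unfold qf
    rw [qb_odd, neg_sq] at h
    have h4 : 0 < 2 * Real.pi * (-c) := by
      have : 0 < -c := by linarith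
      positivity
    have h5 : 1 / 2 + er c < Real.exp (-(Real.pi * c ^ 2)) / (2 * Real.pi * (-c)) := by linarith
    rw [lt_div_iff₀ h4] at h5
    nlinarith [h5]

theorem qb : T_QB := by
  refine ⟨qb_er, qb_odd, qb_lt, qb_gt, qb_qf, qb_sub, qb_pos, ?_, ?_⟩
  · refine strictMono_of_deriv_pos fun c => ?_
    rw [(qb_qf c).deriv]
    have h1 := qb_gt c
    have hpi := Real.pi_pos
    apply mul_pos (by positivity)
    linarith
  · unfold qf er
    simp

end Pool.Agent.H84.TS
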