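import Pool.Agent.H73.TS.Targets

/-! Module SL of the board ts_modules: `St c` for `π c^2 ≥ 2`. -/

open MeasureTheory Set Metric Filter
open scoped ENNReal Topology

namespace Pool.Agent.H84.TS

open Pool.Agent.H73.TS

private theorem sl_poly (z : ℝ) (hz : 5.013 ≤ z) :
    (16 - z) * ((0.159155 * z ^ 2 + 1) * (0.159155 * z ^ 2 + 8)) ≤
      15.632 * (z - 1) * (0.159154 * z ^ 2 + 7) := by
  obtain ⟨s, hs, rfl⟩ : ∃ s : ℝ, 0 ≤ s ∧ z = 5.013 + s := ⟨z - 5.013, by linarith, by ring⟩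
  nlinarith [hs, pow_nonneg hs 2, pow_nonneg hs 3, pow_nonneg hs 4, pow_nonneg hs 5]

/-- `2 π c ≥ 5.013` if `π c^2 ≥ 2` -/
private theorem sl_z (c : ℝ) (hc : 0 < c) (h2 : 2 ≤ Real.pi * c ^ 2) :
    5.013 ≤ 2 * Real.pi * c := by
  have hpi := Real.pi_gt_d6
  have hpi0 := Real.pi_pos
  have h1 : 0 < 2 * Real.pi * c := by positivity
  have h3 : (2 * Real.pi * c) ^ 2 = 4 * Real.pi * (Real.pi * c ^ 2) := by ring
  by_contra hcon
  rw [not_le] at hcon
  have h4 : (2 * Real.pi * c) ^ 2 < 5.013 ^ 2 := pow_lt_pow_left₀ hcon h1.le two_ne_zero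
  have h5 : 4 * Real.pi * 2 ≤ 4 * Real.pi * (Real.pi * c ^ 2) :=
    mul_le_mul_of_nonneg_left h2 (by positivity)
  rw [h3] at h4
  nlinarith

private theorem sl_exp : Real.exp (-2) ≤ 0.13534 := by
  have h1 := Real.exp_one_gt_d9
  have h2 : Real.exp 2 = Real.exp 1 * Real.exp 1 := by
    rw [← Real.exp_add]; norm_num
  have h3 : 7.389 < Real.exp 2 := by rw [h2]; nlinarith
  rw [Real.exp_neg]
  have h4 : (Real.exp 2)⁻¹ ≤ (7.389 : ℝ)⁻¹ := inv_anti₀ (by norm_num) h3.le
  refine h4.trans ?_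
  norm_num

/-- `1/2 - er c ≤ 0.023` if `π c^2 ≥ 2` -/
private theorem sl_er (hMI : T_MI) (hQB : T_QB) (c : ℝ) (hc : 0 < c) (h2 : 2 ≤ Real.pi * c ^ 2) :
    1 / 2 - er c ≤ 0.023 := by
  have hpi0 := Real.pi_pos
  set c0 : ℝ := Real.sqrt (2 / Real.pi) with hc0
  have hc0p : 0 < c0 := Real.sqrt_pos.2 (by positivity)
  have hc0s : c0 ^ 2 = 2 / Real.pi := Real.sq_sqrt (by positivity)
  have hc0t : Real.pi * c0 ^ 2 = 2 := by rw [hc0s]; field_simp
  have hle : c0 ≤ c := by
    have h3 : c0 ^ 2 ≤ c ^ 2 := by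
      have : Real.pi * c0 ^ 2 ≤ Real.pi * c ^ 2 := by rw [hc0t]; exact h2
      exact le_of_mul_le_mul_left this hpi0
    exact (pow_le_pow_iff_left₀ hc0p.le hc.le two_ne_zero).1 h3
  have hmono : Monotone er := (strictMono_of_deriv_pos fun x => by
    rw [(hQB.1 x).deriv]; exact Real.exp_pos _).monotone
  have h3 := hMI c0 hc0p
  have h4 : 2 * Real.pi * c0 ^ 2 = 4 := by linarith
  rw [h4, hc0t] at h3
  have h5 := sl_z c0 hc0p hc0t.ge
  have h6 := sl_exp
  have h7 : er c0 < 1 / 2 := hQB.2.2.1 c0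
  have h8 := hmono hle
  have h9 : (1 / 2 - er c0) * 5.013 ≤ (1 / 2 - er c0) * (2 * Real.pi * c0) :=
    mul_le_mul_of_nonneg_left h5 (by linarith)
  norm_num at h3
  nlinarith

theorem sl (hMI : T_MI) (hQB : T_QB) : T_SL := by
  intro c hc h2 h16
  have hpi0 := Real.pi_pos
  have hpi1 := Real.pi_gt_d6
  have hpi2 := Real.pi_lt_d6
  obtain ⟨hq1, hq2, hq3, hq4, hq5, hq6, hq7, hq8, hq9⟩ := hQB
  have hAm := sl_er hMI ⟨hq1, hq2, hq3, hq4, hq5, hq6, hq7, hq8, hq9⟩ c hc h2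
  have hM0 := hMI c hc
  have hz := sl_z c hc h2
  set Am := 1 / 2 - er c with hAmd
  have hAp : 1 / 2 + er c = 1 - Am := by rw [hAmd]; ring
  have hAm0 : 0 < Am := by have := hq3 c; linarith
  set z := 2 * Real.pi * c with hzd
  set y := 2 * Real.pi * c ^ 2 with hyd
  have hyz : z ^ 2 = 2 * Real.pi * y := by rw [hzd, hyd]; ring
  have hy0 : 0 ≤ y := by rw [hyd]; positivity
  have hqp : qf c = qf (-c) + z := hq6 c
  have hqm0 : 0 < qf (-c) := hq7 (-c)
  have hqm1 : qf (-c) < 1 := by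
    have := hq8 (show -c < 0 by linarith)
    rw [hq9] at this
    exact this
  have hqm : qf (-c) = Real.exp (-(Real.pi * c ^ 2)) - z * Am := by
    unfold qf
    rw [hq2, neg_sq, hAmd, hzd]
    ring
  set qm := qf (-c) with hqmd
  have hM : Am * z * (y + 7) ≤ qm * ((y + 1) * (y + 8)) := by
    rw [hqm]
    nlinarith [hM0]
  set q := qf c with hqd
  have hz16 : z < 16 := by linarith
  have hy1 : 0.159154 * z ^ 2 ≤ y := by
    rw [hyz]; nlinarith
  have hy2 : y ≤ 0.159155 * z ^ 2 := by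
    rw [hyz]; nlinarith
  have hfin : (16 - z) * ((y + 1) * (y + 8)) ≤ 16 * (1 - Am) * (z - 1) * (y + 7) := by
    calc (16 - z) * ((y + 1) * (y + 8))
        ≤ (16 - z) * ((0.159155 * z ^ 2 + 1) * (0.159155 * z ^ 2 + 8)) := by
          refine mul_le_mul_of_nonneg_left ?_ (by linarith)
          exact mul_le_mul (by linarith) (by linarith) (by linarith) (by nlinarith)
      _ ≤ 15.632 * (z - 1) * (0.159154 * z ^ 2 + 7) := sl_poly z hz
      _ ≤ 15.632 * (z - 1) * (y + 7) :=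
          mul_le_mul_of_nonneg_left (by linarith) (by nlinarith)
      _ ≤ 16 * (1 - Am) * (z - 1) * (y + 7) := by
          refine mul_le_mul_of_nonneg_right ?_ (by linarith)
          exact mul_le_mul_of_nonneg_right (by linarith) (by linarith)
  have hk : q * (16 - q) * (z - 1) ≤ z * (16 - z) * (q - 1) := by
    have h1 : 0 ≤ (q - z) * (15 + (z - 1) * (q - 1)) := by
      refine mul_nonneg (by linarith) ?_
      have : 0 ≤ (z - 1) * (q - 1) := mul_nonneg (by linarith) (by linarith)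
      linarith
    nlinarith [h1]
  have hY : 0 < (y + 1) * (y + 8) := by positivity
  have H1 : Am * q * (16 - q) ≤ 16 * (1 - Am) * (q - 1) * qm := by
    have hc1 : 0 < (z - 1) * ((y + 1) * (y + 8)) := mul_pos (by linarith) hY
    refine le_of_mul_le_mul_right ?_ hc1
    calc Am * q * (16 - q) * ((z - 1) * ((y + 1) * (y + 8)))
        = (Am * ((y + 1) * (y + 8))) * (q * (16 - q) * (z - 1)) := by ring
      _ ≤ (Am * ((y + 1) * (y + 8))) * (z * (16 - z) * (q - 1)) :=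
          mul_le_mul_of_nonneg_left hk (by positivity)
      _ = (Am * z * (q - 1)) * ((16 - z) * ((y + 1) * (y + 8))) := by ring
      _ ≤ (Am * z * (q - 1)) * (16 * (1 - Am) * (z - 1) * (y + 7)) :=
          mul_le_mul_of_nonneg_left hfin (by
            apply mul_nonneg (mul_nonneg hAm0.le (by linarith)); linarith)
      _ = (16 * (1 - Am) * (z - 1) * (q - 1)) * (Am * z * (y + 7)) := by ring
      _ ≤ (16 * (1 - Am) * (z - 1) * (q - 1)) * (qm * ((y + 1) * (y + 8))) :=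
          mul_le_mul_of_nonneg_left hM (by
            apply mul_nonneg (mul_nonneg (mul_nonneg (by norm_num) (by linarith)) (by linarith))
            linarith)
      _ = 16 * (1 - Am) * (q - 1) * qm * ((z - 1) * ((y + 1) * (y + 8))) := by ring
  unfold St
  rw [← hqmd, ← hqd, ← hAmd, hAp]
  have h3 : (1 - qm) * (Am * q * (16 - q)) ≤ (1 - qm) * (16 * (1 - Am) * (q - 1) * qm) :=
    mul_le_mul_of_nonneg_left H1 (by linarith)
  have h4 : 0 ≤ (1 - Am) * (q - 1) * qm * (15 * qm) := by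
    apply mul_nonneg (mul_nonneg (mul_nonneg (by linarith) (by linarith)) hqm0.le)
    linarith
  nlinarith [h3, h4]

end Pool.Agent.H84.TS
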